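import Pool.Agent.U485.SM.Stm2

/-!
# Project HT, package CO4: the constant of the prime quadruplets
-/

set_option autoImplicit false

open Finset Filter Topology

namespace Pool.Agent.U690.HT

open Pool.Agent.U485.SM

/-- the factor -/
noncomputable def ff (p : ℕ) : ℝ := (p : ℝ) ^ 3 * (p - 4) / (p - 1) ^ 4

lemma ff_pos {p : ℕ} (h5 : 5 ≤ p) : 0 < ff p := by
  have h : (5 : ℝ) ≤ p := by exact_mod_cast h5
  unfold ff
  have h1 : (0 : ℝ) < p - 4 := by linarith
  have h2 : (0 : ℝ) < p - 1 := by linarith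
  positivity

lemma log_ff_le {p : ℕ} (h5 : 5 ≤ p) : |Real.log (ff p)| ≤ 30 * (1 / (p : ℝ) ^ 2) := by
  have h : (5 : ℝ) ≤ p := by exact_mod_cast h5
  have hp := ff_pos h5
  have h1 : (0 : ℝ) < p - 4 := by linarith
  have h2 : (0 : ℝ) < p - 1 := by linarith
  have h0 : (0 : ℝ) < p := by linarith
  have hle : ff p ≤ 1 := by
    unfold ff
    rw [div_le_one (by positivity)]
    nlinarith
  rw [abs_of_nonpos (Real.log_nonpos hp.le hle)]
  have h3 : 1 - (ff p)⁻¹ ≤ Real.log (ff p) := Real.one_sub_inv_le_log_of_pos hp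
  have h4 : (ff p)⁻¹ - 1 ≤ 30 * (1 / (p : ℝ) ^ 2) := by
    unfold ff
    rw [inv_div, div_sub_one (by positivity), mul_one_div, div_le_div_iff₀ (by positivity) (by positivity)]
    have h5 : ((p:ℝ) - 1) ^ 4 - (p : ℝ) ^ 3 * (p - 4) = 6 * (p:ℝ) ^ 2 - 4 * p + 1 := by ring
    rw [h5]
    have h6 : (6 * (p:ℝ) ^ 2 - 4 * p + 1) ≤ 6 * (p:ℝ) ^ 2 := by linarith
    have h7 : (p : ℝ) ≤ 5 * (p - 4) := by linarith
    calc (6 * (p:ℝ) ^ 2 - 4 * p + 1) * (p : ℝ) ^ 2 ≤ 6 * (p:ℝ) ^ 2 * (p : ℝ) ^ 2 :=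
          mul_le_mul_of_nonneg_right h6 (by positivity)
      _ = 6 * (p : ℝ) ^ 3 * p := by ring
      _ ≤ 6 * (p : ℝ) ^ 3 * (5 * (p - 4)) := mul_le_mul_of_nonneg_left h7 (by positivity)
      _ = 30 * ((p : ℝ) ^ 3 * (p - 4)) := by ring
  linarith

/-- the logarithms -/
noncomputable def aa (n : ℕ) : ℝ := if 5 ≤ n ∧ n.Prime then Real.log (ff n) else 0

lemma summable_aa : Summable aa := by
  have h : Summable (fun n : ℕ => 30 * (1 / (n : ℝ) ^ 2)) :=
    (Real.summable_one_div_nat_pow.mpr (by norm_num)).mul_left 30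
  refine Summable.of_norm_bounded h fun n => ?_
  unfold aa
  split_ifs with hn
  · exact log_ff_le hn.1
  · rw [norm_zero]; positivity

lemma K4_eq (y : ℕ) : K4 y = Real.exp (∑ n ∈ range (y + 1), aa n) := by
  unfold K4
  rw [Real.exp_sum]
  have h1 : ∏ n ∈ range (y + 1), Real.exp (aa n) =
      ∏ n ∈ (range (y + 1)).filter (fun n => 5 ≤ n ∧ n.Prime), ff n := by
    rw [prod_filter]
    apply prod_congr rfl
    intro n _
    unfold aa
    split_ifs with hn
    · exact Real.exp_log (ff_pos hn.1)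
    · exact Real.exp_zero
  rw [h1]
  apply prod_congr
  · ext n
    simp only [mem_filter, mem_Icc, mem_range]
    constructor
    · rintro ⟨⟨h2, h3⟩, h4⟩; exact ⟨by omega, h2, h4⟩
    · rintro ⟨h2, h3, h4⟩; exact ⟨⟨h3, by omega⟩, h4⟩
  · intro n _; rfl

lemma res_four {p : ℕ} (hp : p.Prime) (h5 : 5 ≤ p) : res {0, 2, 6, 8} p = 4 := by
  by_cases h : p ≤ 8
  · interval_cases p
    · decide
    · exact absurd hp (by norm_num)
    · decide
    · exact absurd hp (by norm_num)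
  · unfold res
    rw [card_image_of_injOn]
    · rfl
    · intro a ha b hb hab
      simp only [coe_insert, coe_singleton, Set.mem_insert_iff, Set.mem_singleton_iff] at ha hb
      have h1 : a < p := by omega
      have h2 : b < p := by omega
      simpa [Nat.mod_eq_of_lt h1, Nat.mod_eq_of_lt h2] using hab

lemma factor_eq {p : ℕ} (hp : p.Prime) (h5 : 5 ≤ p) :
    (1 - (res {0, 2, 6, 8} p : ℝ) / p) * (1 - 1 / (p : ℝ))⁻¹ ^ ({0, 2, 6, 8} : Finset ℕ).card =
      ff p := by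
  have h : (5 : ℝ) ≤ p := by exact_mod_cast h5
  have h0 : (p : ℝ) ≠ 0 := by linarith
  have h2 : (p : ℝ) - 1 ≠ 0 := by linarith
  have hc : ({0, 2, 6, 8} : Finset ℕ).card = 4 := by decide
  rw [res_four hp h5, hc]
  unfold ff
  push_cast
  rw [one_sub_div h0, one_sub_div h0, inv_div, div_pow]
  field_simp

lemma Pr_eq {y : ℕ} (hy : 3 ≤ y) :
    Pr y = insert 2 (insert 3 ((Icc 5 y).filter Nat.Prime)) := by
  ext n
  simp only [Pr, mem_filter, mem_Icc, mem_insert]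
  constructor
  · rintro ⟨⟨h1, h2⟩, h3⟩
    by_cases h5 : 5 ≤ n
    · exact Or.inr (Or.inr ⟨⟨h5, h2⟩, h3⟩)
    · interval_cases n
      · exact absurd h3 (by norm_num)
      · exact Or.inl rfl
      · exact Or.inr (Or.inl rfl)
      · exact absurd h3 (by norm_num)
  · rintro (rfl | rfl | ⟨⟨h1, h2⟩, h3⟩)
    · exact ⟨⟨by norm_num, by omega⟩, Nat.prime_two⟩
    · exact ⟨⟨by norm_num, hy⟩, Nat.prime_three⟩
    · exact ⟨⟨by omega, h2⟩, h3⟩

lemma PP_eq {y : ℕ} (hy : 3 ≤ y) : PP {0, 2, 6, 8} y = 27 / 2 * K4 y := by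
  unfold PP
  rw [Pr_eq hy, prod_insert (by simp), prod_insert (by simp)]
  have h2 : res {0, 2, 6, 8} 2 = 1 := by decide
  have h3 : res {0, 2, 6, 8} 3 = 2 := by decide
  have hc : ({0, 2, 6, 8} : Finset ℕ).card = 4 := by decide
  have h4 : ∏ p ∈ (Icc 5 y).filter Nat.Prime, ((1 - (res {0, 2, 6, 8} p : ℝ) / p) *
      (1 - 1 / (p : ℝ))⁻¹ ^ ({0, 2, 6, 8} : Finset ℕ).card) = K4 y := by
    unfold K4
    apply prod_congr rfl
    intro p hp
    rw [mem_filter, mem_Icc] at hp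
    exact factor_eq hp.2 hp.1.1
  rw [h4, h2, h3, hc]
  norm_num
  ring

theorem t_CO4 : S_CO4 := by
  have h1 : Tendsto K4 atTop (𝓝 (Real.exp (∑' n, aa n))) := by
    have h2 := (summable_aa.hasSum.tendsto_sum_nat).comp (tendsto_add_atTop_nat 1)
    have h3 := (Real.continuous_exp.tendsto _).comp h2
    refine h3.congr fun y => ?_
    rw [K4_eq]; rfl
  refine ⟨Real.exp (∑' n, aa n), Real.exp_pos _, h1, ?_⟩
  refine (h1.const_mul (27 / 2)).congr' ?_
  filter_upwards [eventually_ge_atTop 3] with y hy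
  exact (PP_eq hy).symm

end Pool.Agent.U690.HT
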